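import Pool.Agent.Helper86.SJ.Defs

set_option autoImplicit false

open Finset

namespace SJ.H58

open SJ

theorem mem_supp {n : ℕ} {v : Fin n → ℤ} {i : Fin n} : i ∈ supp v ↔ v i ≠ 0 := by
  simp [supp]

theorem mem_fib {n : ℕ} {F : Finset (Fin n → ℤ)} {S : Finset (Fin n)} {v : Fin n → ℤ} :
    v ∈ fib F S ↔ v ∈ F ∧ supp v = S := by
  classical
  simp [fib]

/-- package CEN -/
theorem CEN : CENStm := by
  classical
  intro n k F hk hF T V v₁ hv₁ hv₁T hV hEX hT hTT hv
  refine ⟨?_, ?_⟩
  · intro S hS hST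
    obtain ⟨t, htS, htT⟩ := Finset.not_disjoint_iff.1 hST
    -- differing coordinates are not dominated
    have key : ∀ v ∈ fib F S, ∀ v' ∈ fib F S, ∀ f ∈ S, v f ≠ v' f → ∀ u ∈ S, ¬ Arc F u f := by
      intro v hv v' hv' f hf hne u hu harc
      obtain ⟨hvF, hvS⟩ := mem_fib.1 hv
      obtain ⟨hvF', hvS'⟩ := mem_fib.1 hv'
      obtain ⟨-, -, -, c, -, hc⟩ := harc
      apply hne
      rw [hc v hvF (mem_supp.1 (hvS ▸ hu)) (mem_supp.1 (hvS ▸ hf)),
        hc v' hvF' (mem_supp.1 (hvS' ▸ hu)) (mem_supp.1 (hvS' ▸ hf))]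
    have inT : ∀ v ∈ fib F S, ∀ v' ∈ fib F S, ∀ f ∈ S, v f ≠ v' f → f ∈ T := by
      intro v hv v' hv' f hf hne
      by_contra hfT
      exact key v hv v' hv' f hf hne t htS (hT t htT f hfT)
    have inS : ∀ v ∈ fib F S, ∀ v' ∈ fib F S, ∀ f, v f ≠ v' f → f ∈ S := by
      intro v hv v' hv' f hne
      by_contra hf
      obtain ⟨hvF, hvS⟩ := mem_fib.1 hv
      obtain ⟨hvF', hvS'⟩ := mem_fib.1 hv'
      apply hne
      have h1 : v f = 0 := by
        by_contra h
        exact hf (hvS ▸ mem_supp.2 h)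
      have h2 : v' f = 0 := by
        by_contra h
        exact hf (hvS' ▸ mem_supp.2 h)
      rw [h1, h2]
    by_cases hall : ∀ v ∈ fib F S, ∀ v' ∈ fib F S, v = v'
    · exact (Finset.card_le_one.2 hall).trans (by norm_num)
    push Not at hall
    obtain ⟨v, hv, v', hv', hne⟩ := hall
    obtain ⟨f0, hf0⟩ := Function.ne_iff.1 hne
    have hf0S := inS v hv v' hv' f0 hf0
    have hf0T := inT v hv v' hv' f0 hf0S hf0
    have hother : ∀ u ∈ fib F S, ∀ u' ∈ fib F S, ∀ f, f ≠ f0 → u f = u' f := by
      intro u hu u' hu' f hff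
      by_contra h
      have hfS := inS u hu u' hu' f h
      have hfT := inT u hu u' hu' f hfS h
      rcases hTT f hfT f0 hf0T hff with h1 | h1
      · exact key v hv v' hv' f0 hf0S hf0 f hfS h1
      · exact key u hu u' hu' f hfS h f0 hf0S h1
    have hcard : #(fib F S) ≤ #({-1, 1} : Finset ℤ) := by
      refine Finset.card_le_card_of_injOn (fun u => u f0) ?_ ?_
      · intro u hu
        obtain ⟨huF, huS⟩ := mem_fib.1 (Finset.mem_coe.1 hu)
        have h1 := (hF.1 u huF).1 f0
        have h2 : u f0 ≠ 0 := mem_supp.1 (huS ▸ hf0S)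
        simp only [Finset.coe_insert, Finset.coe_singleton, Set.mem_insert_iff,
          Set.mem_singleton_iff]
        rcases h1 with h1 | h1 | h1
        · exact Or.inl h1
        · exact absurd h1 h2
        · exact Or.inr h1
      · intro u hu u' hu' h
        funext f
        by_cases hff : f = f0
        · rw [hff]; exact h
        · exact hother u (Finset.mem_coe.1 hu) u' (Finset.mem_coe.1 hu') f hff
    exact hcard.trans (by decide)
  · have hex : ∀ y : Fin n, ∃ s : ℤ, (s = 1 ∨ s = -1) ∧
        (y ∉ T → y ≠ v₁ → ∀ v ∈ F, v v₁ ≠ 0 → v y ≠ 0 → v y = s) := by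
      intro y
      by_cases h1 : y ∉ T ∧ y ≠ v₁
      · obtain ⟨-, -, -, c, hc, hc'⟩ := hv y h1.1 h1.2
        exact ⟨c, hc, fun _ _ => hc'⟩
      · exact ⟨1, Or.inl rfl, fun h2 h3 => absurd ⟨h2, h3⟩ h1⟩
    choose c hc hc' using hex
    refine ⟨c, hc, fun v hvF hdis => Finset.card_le_one.2 ?_⟩
    intro y hy z hz
    by_contra hyz
    obtain ⟨hy1, hy2⟩ := Finset.mem_filter.1 hy
    obtain ⟨hz1, hz2⟩ := Finset.mem_filter.1 hz
    have hyT : y ∉ T := Finset.disjoint_left.1 hdis hy1
    have hzT : z ∉ T := Finset.disjoint_left.1 hdis hz1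
    by_cases hv1 : v v₁ = 0
    · have hyv : y ≠ v₁ := by rintro rfl; exact mem_supp.1 hy1 hv1
      have hzv : z ≠ v₁ := by rintro rfl; exact mem_supp.1 hz1 hv1
      have hcardV : k - 3 ≤ #((V \ supp v).erase v₁) := by
        have h1 : #V ≤ #(V \ supp v) + #(supp v) := by
          have := Finset.le_card_sdiff (supp v) V
          omega
        have h2 : #(V \ supp v) - 1 ≤ #((V \ supp v).erase v₁) := Finset.pred_card_le_card_erase
        have h3 : #(supp v) = k := (hF.1 v hvF).2
        omega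
      obtain ⟨R, hR, hRc⟩ := Finset.exists_subset_card_eq hcardV
      have hRv : ∀ i ∈ R, i ≠ v₁ ∧ v i = 0 := by
        intro i hi
        obtain ⟨h1, h2⟩ := Finset.mem_erase.1 (hR hi)
        refine ⟨h1, ?_⟩
        by_contra h3
        exact (Finset.mem_sdiff.1 h2).2 (mem_supp.2 h3)
      have hyR : y ∉ R := fun h => mem_supp.1 hy1 (hRv y h).2
      have hzR : z ∉ R := fun h => mem_supp.1 hz1 (hRv z h).2
      have hvR : v₁ ∉ R := fun h => (hRv v₁ h).1 rfl
      obtain ⟨S, hSdef⟩ : ∃ S, S = insert v₁ (insert y (insert z R)) := ⟨_, rfl⟩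
      have hScard : #S = k := by
        rw [hSdef, Finset.card_insert_of_notMem, Finset.card_insert_of_notMem,
          Finset.card_insert_of_notMem hzR, hRc]
        · omega
        · simp [hyR, hyz]
        · simp [hvR, Ne.symm hyv, Ne.symm hzv]
      have hv1S : v₁ ∈ S := by rw [hSdef]; simp
      have hyS : y ∈ S := by rw [hSdef]; simp
      have hzS : z ∈ S := by rw [hSdef]; simp
      have hnot : S ∉ EX k F := fun h => Finset.disjoint_left.1 (hEX S h) hv1S hv₁
      have hLL : ¬ #(fib F S) ≤ 1 := by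
        intro h
        apply hnot
        rw [EX, Finset.mem_union]
        right
        rw [LL, Finset.mem_filter]
        exact ⟨Finset.mem_powersetCard.2 ⟨Finset.subset_univ _, hScard⟩, h⟩
      obtain ⟨w, hw⟩ : (fib F S).Nonempty := by
        rw [← Finset.card_pos]; omega
      obtain ⟨hwF, hwS⟩ := mem_fib.1 hw
      have hw1 : w v₁ ≠ 0 := mem_supp.1 (hwS ▸ hv1S)
      have hwy : w y = c y := hc' y hyT hyv w hwF hw1 (mem_supp.1 (hwS ▸ hyS))
      have hwz : w z = c z := hc' z hzT hzv w hwF hw1 (mem_supp.1 (hwS ▸ hzS))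
      have hprod : ∀ x, v x ≠ 0 → v x ≠ c x → v x * c x = -1 := by
        intro x h1 h2
        rcases (hF.1 v hvF).1 x with h3 | h3 | h3
        · rcases hc x with h4 | h4
          · rw [h3, h4]; norm_num
          · exact absurd (h3.trans h4.symm) h2
        · exact absurd h3 h1
        · rcases hc x with h4 | h4
          · exact absurd (h3.trans h4.symm) h2
          · rw [h3, h4]; norm_num
      have hdot : dot v w = -2 := by
        rw [dot, ← Finset.sum_subset (Finset.subset_univ ({y, z} : Finset (Fin n)))]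
        · rw [Finset.sum_pair hyz, hwy, hwz, hprod y (mem_supp.1 hy1) hy2,
            hprod z (mem_supp.1 hz1) hz2]
          norm_num
        · intro i _ hi
          by_cases h1 : v i = 0
          · rw [h1, zero_mul]
          by_cases h2 : w i = 0
          · rw [h2, mul_zero]
          exfalso
          have h3 : i ∈ S := hwS ▸ mem_supp.2 h2
          rw [hSdef] at h3
          simp only [Finset.mem_insert] at h3
          simp only [Finset.mem_insert, Finset.mem_singleton, not_or] at hi
          rcases h3 with h3 | h3 | h3 | h3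
          · exact h1 (h3 ▸ hv1)
          · exact hi.1 h3
          · exact hi.2 h3
          · exact h1 (hRv i h3).2
      exact hF.2 v hvF w hwF (fun h => hw1 (h ▸ hv1)) hdot
    · have h1 : y = v₁ := by
        by_contra h
        exact hy2 (hc' y hyT h v hvF hv1 (mem_supp.1 hy1))
      have h2 : z = v₁ := by
        by_contra h
        exact hz2 (hc' z hzT h v hvF hv1 (mem_supp.1 hz1))
      exact hyz (h1.trans h2.symm)

end SJ.H58
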