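import Pool.Agent.Helper58.SJ.CEN

set_option autoImplicit false

open Finset

namespace SJ.H58

open SJ

/-- package SMALL -/
theorem SMALL : SMALLStm := by
  classical
  intro n m A hA
  obtain ⟨Z, hZ⟩ : ∃ Z : Finset (Fin n), Z =
    (univ : Finset (Fin n)).filter (fun x => n ≤ #(univ.filter (fun u => A u x)) + m + 1) :=
      ⟨_, rfl⟩
  have hgoal : #Z ≤ 2 * m + 1 := by
    have h1 : ∀ x ∈ Z, #Z ≤ ∑ u ∈ Z, (if A u x then 1 else 0) + (m + 1) := by
      intro x hx
      rw [hZ, Finset.mem_filter] at hx
      have h2 : #(Z.filter (fun u => A u x)) = ∑ u ∈ Z, (if A u x then 1 else 0) :=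
        Finset.card_filter _ _
      rw [← h2]
      have h3 := Finset.card_union_add_card_inter Z (univ.filter (fun u => A u x))
      have h4 : Z ∩ univ.filter (fun u => A u x) = Z.filter (fun u => A u x) := by
        ext u; simp
      have h5 : #(Z ∪ univ.filter (fun u => A u x)) ≤ n := by
        have := Finset.card_le_univ (Z ∪ univ.filter (fun u => A u x))
        simpa using this
      rw [h4] at h3
      have h6 := hx.2
      omega
    have h2 : ∀ x ∈ Z, ∑ u ∈ Z, (if A u x then 1 else 0) + ∑ u ∈ Z, (if A x u then 1 else 0) + 1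
        ≤ #Z := by
      intro x hx
      have h3 : ∑ u ∈ Z, (if u = x then 1 else 0) = 1 := by
        rw [Finset.sum_ite_eq' Z x (fun _ => 1), if_pos hx]
      have h4 : #Z = ∑ u ∈ Z, 1 := by simp
      rw [h4]
      nth_rw 3 [← h3]
      rw [← Finset.sum_add_distrib, ← Finset.sum_add_distrib]
      refine Finset.sum_le_sum fun u _ => ?_
      by_cases h5 : u = x
      · subst h5
        have h6 : ¬ A u u := fun h => hA u u h h
        simp [h6]
      · by_cases h6 : A u x
        · have h7 := hA u x h6
          simp [h5, h6, h7]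
        · simp only [h5, h6, if_false]
          split_ifs <;> norm_num
    have h3 := Finset.sum_le_sum h1
    have h4 := Finset.sum_le_sum h2
    rw [Finset.sum_const, smul_eq_mul, Finset.sum_add_distrib, Finset.sum_const, smul_eq_mul] at h3
    rw [Finset.sum_add_distrib, Finset.sum_add_distrib, Finset.sum_const, smul_eq_mul,
      Finset.sum_const, smul_eq_mul, mul_one] at h4
    have h5 : ∑ x ∈ Z, ∑ u ∈ Z, (if A x u then 1 else 0) =
        ∑ x ∈ Z, ∑ u ∈ Z, (if A u x then 1 else 0) := Finset.sum_comm
    rw [h5] at h4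
    by_contra hcon
    push Not at hcon
    nlinarith
  rw [hZ] at hgoal
  exact hgoal

/-- package SUM -/
theorem SUM (hS : SRCStm) : SUMStm := by
  classical
  intro n k F hk hF
  obtain ⟨Q, hQ⟩ : ∃ Q, Q = powersetCard k (univ : Finset (Fin n)) := ⟨_, rfl⟩
  have h1 : #F = ∑ S ∈ Q, #(fib F S) := by
    rw [Finset.card_eq_sum_card_fiberwise (f := supp) (t := Q)]
    · refine Finset.sum_congr rfl fun S _ => ?_
      rfl
    · intro v hv
      rw [hQ]
      exact Finset.mem_coe.2 (Finset.mem_powersetCard.2
        ⟨Finset.subset_univ _, (hF v (Finset.mem_coe.1 hv)).2⟩)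
  have h2 : #(LL k F) = ∑ S ∈ Q, (if #(fib F S) ≤ 1 then 1 else 0) := by
    rw [hQ, LL, Finset.card_filter]
  have h3 : #(HH k F) = ∑ S ∈ Q, (if S ∈ HH k F then 1 else 0) := by
    rw [← Finset.card_filter]
    congr 1
    ext S
    rw [Finset.mem_filter, hQ]
    constructor
    · intro h
      exact ⟨(Finset.mem_filter.1 h).1, h⟩
    · exact fun h => h.2
  have h4 : n.choose k = ∑ S ∈ Q, 1 := by
    rw [hQ]
    simp
  rw [h1, h2, h3, h4, ← Finset.sum_add_distrib, Finset.mul_sum, Finset.mul_sum,
    ← Finset.sum_add_distrib]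
  refine Finset.sum_le_sum fun S hSQ => ?_
  rw [hQ, Finset.mem_powersetCard] at hSQ
  by_cases hL : #(fib F S) ≤ 1
  · rw [if_pos hL]
    omega
  rw [if_neg hL]
  by_cases hH : S ∈ HH k F
  · rw [if_pos hH]
    have h5 : #(fib F S) ≤ #S.powerset := by
      refine Finset.card_le_card_of_injOn (fun v => S.filter (fun i => v i = 1)) ?_ ?_
      · intro v _
        exact Finset.mem_coe.2 (Finset.mem_powerset.2 (Finset.filter_subset _ _))
      · intro v hv w hw h
        obtain ⟨hv1, hv2⟩ := mem_fib.1 (Finset.mem_coe.1 hv)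
        obtain ⟨hw1, hw2⟩ := mem_fib.1 (Finset.mem_coe.1 hw)
        funext i
        have h6 : v i = 1 ↔ w i = 1 := by
          by_cases hi : i ∈ S
          · have h7 := Finset.ext_iff.1 h i
            simp only [Finset.mem_filter, hi, true_and] at h7
            exact h7
          · have h8 : v i = 0 := by
              by_contra h9
              exact hi (hv2 ▸ mem_supp.2 h9)
            have h9 : w i = 0 := by
              by_contra h9
              exact hi (hw2 ▸ mem_supp.2 h9)
            rw [h8, h9]
        have h7 : v i = 0 ↔ w i = 0 := by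
          have h8 : v i ≠ 0 ↔ w i ≠ 0 := by
            rw [← mem_supp, ← mem_supp, hv2, hw2]
          tauto
        rcases (hF v hv1).1 i with h8 | h8 | h8 <;> rcases (hF w hw1).1 i with h9 | h9 | h9 <;>
          omega
    rw [Finset.card_powerset, hSQ.2] at h5
    omega
  · have hE : S ∉ EX k F := by
      rw [EX, Finset.mem_union]
      rintro (h | h)
      · exact hH h
      · rw [LL, Finset.mem_filter] at h
        exact hL h.2
    have h5 := (hS n k F hF S hSQ.2 hE).1
    rw [h5, if_neg hH]
    omega

end SJ.H58
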